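import Pool.Agent.Lib.MP_5684f0_lc.U.Code

/-!
A base of open sets in a product of copies of a sequence space, with families of conditions
prepared for all patterns of bits.
-/

namespace Pool.Agent.Lib.MP_5684f0_lc.G

open Filter Topology Set PiNat

/-- The space of one board. -/
abbrev Y (D : Type) := ℕ → D

variable {D α : Type} [TopologicalSpace D] [DiscreteTopology D]

theorem ev_cyl {U : Set (Y D)} {x : (Y D)} (h : U ∈ 𝓝 x) : ∀ᶠ s in atTop, cylinder x s ⊆ U := by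
  obtain ⟨t, ⟨z, s, rfl⟩, hx, ht⟩ :=
    (isTopologicalBasis_cylinders (fun _ : ℕ => D)).mem_nhds_iff.1 h
  rw [← mem_cylinder_iff_eq.1 hx] at ht
  exact (eventually_ge_atTop s).mono fun s' hs => (cylinder_anti x hs).trans ht

theorem cyl_open (x : (Y D)) (s : ℕ) : IsOpen (cylinder x s) := isOpen_cylinder (fun _ : ℕ => D) x s

theorem cyl_trans {α : Type} {x y z : ℕ → α} {s : ℕ} (h : x ∈ cylinder y s)
    (h' : y ∈ cylinder z s) : x ∈ cylinder z s := fun i hi => (h i hi).trans (h' i hi)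

theorem cyl_symm {α : Type} {x y : ℕ → α} {s : ℕ} (h : x ∈ cylinder y s) : y ∈ cylinder x s :=
  fun i hi => (h i hi).symm

/-- The image of `A` lies in the closure of the image of `B`. -/
def Sh (p : (Y D) → ℕ → α) (A B : Set (Y D)) : Prop := ∀ y ∈ A, ∀ M, ∃ y' ∈ B, p y' ∈ cylinder (p y) M

theorem Sh.of_subset {p : (Y D) → ℕ → α} {A B : Set (Y D)} (h : A ⊆ B) : Sh p A B :=
  fun y hy M => ⟨y, h hy, self_mem_cylinder _ M⟩

theorem Sh.trans {p : (Y D) → ℕ → α} {A B C : Set (Y D)} (h : Sh p A B) (h' : Sh p B C) : Sh p A C := by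
  intro y hy M
  obtain ⟨y1, h1, h2⟩ := h y hy M
  obtain ⟨y2, h3, h4⟩ := h' y1 h1 M
  exact ⟨y2, h3, cyl_trans h4 h2⟩

/-- Both values of the bit `a` can be forced inside `O` in the shadow of any open subset. -/
def Free (p : (Y D) → ℕ → α) (V : ℕ → Bool → Set (Y D)) (O : Set (Y D)) (a : ℕ) : Prop :=
  ∀ A : Set (Y D), IsOpen A → A.Nonempty → A ⊆ O → ∀ b,
    ∃ B, IsOpen B ∧ B.Nonempty ∧ B ⊆ O ∩ V a b ∧ Sh p B A

/-- A condition with finite support. -/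
structure Cnd (c : ℕ → Set (Y D)) : Prop where
  op : ∀ m, IsOpen (c m)
  ne : ∀ m, (c m).Nonempty
  fin : ∃ L, ∀ m, L ≤ m → c m = univ

/-- A cylinder of length at least `j`. -/
def Small (j : ℕ) (A : Set (Y D)) : Prop := ∃ y l, j ≤ l ∧ A = cylinder y l

theorem Small.op {j : ℕ} {A : Set (Y D)} (h : Small j A) : IsOpen A := by
  obtain ⟨y, l, -, rfl⟩ := h
  exact cyl_open y l

theorem Small.ne {j : ℕ} {A : Set (Y D)} (h : Small j A) : A.Nonempty := by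
  obtain ⟨y, l, -, rfl⟩ := h
  exact ⟨y, self_mem_cylinder y l⟩

theorem Cnd.shrink {c : ℕ → Set (Y D)} (hc : Cnd c) {Z : ℕ → Set (ℕ → (Y D))} (hZ : ∀ d, IsOpen (Z d))
    (hd : Dense (⋃ d, Z d)) (n : ℕ) : ∃ d c', Cnd c' ∧ (∀ m, c' m ⊆ c m) ∧
      (∀ m < n, Small n (c' m)) ∧ ∀ w, (∀ m, w m ∈ c' m) → w ∈ Z d := by
  obtain ⟨L, hL⟩ := hc.fin
  choose o ho using hc.ne
  obtain ⟨w, hw, hwZ⟩ := hd.inter_open_nonempty ((Iio L).pi c)
    (isOpen_set_pi (finite_Iio L) fun m _ => hc.op m) ⟨o, fun m _ => ho m⟩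
  obtain ⟨d, hwd⟩ := mem_iUnion.1 hwZ
  have hwc : ∀ m, w m ∈ c m := fun m => by
    rcases lt_or_ge m L with h | h
    · exact hw m h
    · rw [hL m h]; trivial
  have h1 := (hZ d).mem_nhds hwd
  rw [nhds_pi, Filter.mem_pi'] at h1
  obtain ⟨I, t, ht, hI⟩ := h1
  set T := max n (max L (I.sup id + 1)) with hT
  have h2 : ∀ᶠ s in atTop, T ≤ s ∧ ∀ m ∈ Finset.range T, cylinder (w m) s ⊆ t m ∩ c m :=
    (eventually_ge_atTop T).and ((Finset.eventually_all _).2 fun m _ =>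
      ev_cyl (inter_mem (ht m) ((hc.op m).mem_nhds (hwc m))))
  obtain ⟨s, hs, hs'⟩ := h2.exists
  refine ⟨d, fun m => if m < T then cylinder (w m) s else univ, ⟨fun m => ?_, fun m => ?_,
    T, fun m hm => if_neg (by omega)⟩, fun m => ?_, fun m hm => ?_, fun v hv => hI fun m hm => ?_⟩
  · split_ifs
    exacts [cyl_open _ _, isOpen_univ]
  · split_ifs
    exacts [⟨w m, self_mem_cylinder _ _⟩, ⟨w m, trivial⟩]
  · dsimp only
    split_ifs with h
    · exact (hs' m (Finset.mem_range.2 h)).trans inter_subset_right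
    · rw [hL m (by omega)]
  · exact ⟨w m, s, by omega, if_pos (by omega)⟩
  · have h3 : m ≤ I.sup id := Finset.le_sup (f := id) hm
    have h4 := hv m
    simp only [if_pos (show m < T by omega)] at h4
    exact (hs' m (Finset.mem_range.2 (by omega)) h4).1

variable {p : (Y D) → ℕ → α} {V : ℕ → Bool → Set (Y D)}

theorem step {n : ℕ} (i : ℕ) {O : ℕ → Set (Y D)} {a : ℕ → ℕ} (hF : ∀ m < n, Free p V (O m) (a m))
    {E : Set (ℕ → (Y D))} (hE : IsOpen E) (hE' : Dense E) (b : ℕ → Bool) {c : ℕ → Set (Y D)}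
    (hc : Cnd c) (hO : ∀ m < n, c m ⊆ O m) :
    ∃ c', (Cnd c' ∧ ∀ m < n, c' m ⊆ O m) ∧ (∀ m < n, Small n (c' m) ∧ Sh p (c' m) (c m) ∧
      (i ≤ m → c' m ⊆ V (a m) (b m))) ∧ (∀ m, m < i ∨ n ≤ m → c' m ⊆ c m) ∧
      ∀ w, (∀ m, w m ∈ c' m) → w ∈ E := by
  have h1 : ∀ m, ∃ B : Set (Y D), IsOpen B ∧ B.Nonempty ∧ (m < n → B ⊆ O m ∧ Sh p B (c m) ∧
      (i ≤ m → B ⊆ V (a m) (b m))) ∧ (m < i ∨ n ≤ m → B = c m) := by
    intro m
    by_cases h : m < i ∨ n ≤ m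
    · exact ⟨c m, hc.op m, hc.ne m, fun hm => ⟨hO m hm, .of_subset Subset.rfl,
        fun hi => by omega⟩, fun _ => rfl⟩
    · obtain ⟨B, b1, b2, b3, b4⟩ := hF m (by omega) _ (hc.op m) (hc.ne m) (hO m (by omega)) (b m)
      exact ⟨B, b1, b2, fun _ => ⟨b3.trans inter_subset_left, b4,
        fun _ => b3.trans inter_subset_right⟩, fun h' => absurd h' h⟩
  choose B b1 b2 b3 b4 using h1
  obtain ⟨L, hL⟩ := hc.fin
  have hB : Cnd B := ⟨b1, b2, max L n, fun m hm => by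
    rw [b4 m (Or.inr (by omega)), hL m (by omega)]⟩
  obtain ⟨_, c', c1, c2, c3, c4⟩ := hB.shrink (Z := fun _ => E) (fun _ => hE)
    (by rwa [iUnion_const]) n
  exact ⟨c', ⟨c1, fun m hm => (c2 m).trans (b3 m hm).1⟩, fun m hm => ⟨c3 m hm,
    (Sh.of_subset (c2 m)).trans (b3 m hm).2.1, fun hi => (c2 m).trans ((b3 m hm).2.2 hi)⟩,
    fun m hm => (c2 m).trans (b4 m hm).subset, c4⟩

/-- A family of conditions on the boards below `n`, one for each pattern, with nested shadows. -/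
structure Fam (p : (Y D) → ℕ → α) (V : ℕ → Bool → Set (Y D)) (O : ℕ → Set (Y D)) (a : ℕ → ℕ) (n i K : ℕ)
    (u : ℕ → Set (Y D)) (E : Set (ℕ → (Y D))) (Q : ℕ → ℕ → Set (Y D)) : Prop where
  sub : ∀ ι, ∀ m < n, Q ι m ⊆ O m
  small : ∀ ι, ∀ m < n, Small n (Q ι m)
  sh0 : ∀ ι, ∀ m < n, Sh p (Q ι m) (u m)
  sh : ∀ ι ι', ι' ≤ ι → ∀ m < n, Sh p (Q ι m) (Q ι' m)
  low : ∀ ι, ∀ m < n, m < i → Q ι m ⊆ u m
  bit : ∀ ι, ∀ m < n, i ≤ m → Q ι m ⊆ V (a m) (ι.testBit m)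
  den : ∀ ι < K, ∀ w : ℕ → (Y D), (∀ m < n, w m ∈ Q ι m) → (∀ m, n ≤ m → w m ∈ O m) → w ∈ E

theorem Fam.mono {O O' u u' : ℕ → Set (Y D)} {a a' : ℕ → ℕ} {n i K : ℕ} {E : Set (ℕ → (Y D))}
    {Q : ℕ → ℕ → Set (Y D)} (h : Fam p V O a n i K u E Q) (h1 : ∀ m < n, O' m = O m)
    (h2 : ∀ m, n ≤ m → O' m ⊆ O m) (h3 : ∀ m < n, a' m = a m) (h4 : ∀ m < n, u' m = u m) :
    Fam p V O' a' n i K u' E Q :=
  ⟨fun ι m hm => h1 m hm ▸ h.sub ι m hm, h.small, fun ι m hm => h4 m hm ▸ h.sh0 ι m hm, h.sh,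
    fun ι m hm hi => h4 m hm ▸ h.low ι m hm hi, fun ι m hm hi => h3 m hm ▸ h.bit ι m hm hi,
    fun ι hι w hw hw' => h.den ι hι w hw fun m hm => h2 m hm (hw' m hm)⟩

theorem family {n : ℕ} (i K : ℕ) {c u : ℕ → Set (Y D)} {a : ℕ → ℕ} (hc : Cnd c)
    (hF : ∀ m < n, Free p V (c m) (a m)) {E : Set (ℕ → (Y D))} (hE : IsOpen E) (hE' : Dense E)
    (hu : ∀ m < n, IsOpen (u m) ∧ (u m).Nonempty ∧ u m ⊆ c m) :
    ∃ c' Q, Cnd c' ∧ (∀ m < n, c' m = c m) ∧ (∀ m, c' m ⊆ c m) ∧ Fam p V c' a n i K u E Q := by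
  let T := {e : ℕ → Set (Y D) // Cnd e ∧ ∀ m < n, e m ⊆ c m}
  choose F F1 F2 F3 F4 using fun (ι : ℕ) (e : T) =>
    step i hF hE hE' (fun m => ι.testBit m) e.2.1 e.2.2
  have glue : ∀ e e' : ℕ → Set (Y D), (∀ m < n, IsOpen (e m) ∧ (e m).Nonempty) → Cnd e' →
      Cnd fun m => if m < n then e m else e' m := by
    intro e e' he he'
    obtain ⟨L', hL'⟩ := he'.fin
    refine ⟨fun m => ?_, fun m => ?_, max n L', fun m hm => ?_⟩
    · split_ifs with h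
      exacts [(he m h).1, he'.op m]
    · split_ifs with h
      exacts [(he m h).2, he'.ne m]
    · rw [if_neg (by omega), hL' m (by omega)]
  let e0 : T := ⟨fun m => if m < n then u m else c m,
    glue _ _ (fun m hm => ⟨(hu m hm).1, (hu m hm).2.1⟩) hc,
    fun m hm => by simpa only [if_pos hm] using (hu m hm).2.2⟩
  let q : ℕ → T := fun ι => Nat.rec e0 (fun ι e => ⟨F ι e, F1 ι e⟩) ι
  have anti : ∀ m, m < i ∨ n ≤ m → ∀ ι ι', ι' ≤ ι → (q ι).1 m ⊆ (q ι').1 m := by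
    intro m hm ι ι' h
    induction h with
    | refl => exact Subset.rfl
    | @step k _ ih => exact (F3 k (q k) m hm).trans ih
  have hsh : ∀ m < n, ∀ ι ι', ι' ≤ ι → Sh p ((q ι).1 m) ((q ι').1 m) := by
    intro m hm ι ι' h
    induction h with
    | refl => exact .of_subset Subset.rfl
    | @step k _ ih => exact (F2 k (q k) m hm).2.1.trans ih
  have h0 : ∀ m < n, (q 0).1 m = u m := fun m hm => if_pos hm
  refine ⟨fun m => if m < n then c m else (q K).1 m, fun ι => (q (ι + 1)).1,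
    glue _ _ (fun m _ => ⟨hc.op m, hc.ne m⟩) (q K).2.1, fun m hm => if_pos hm, fun m => ?_,
    ⟨fun ι m hm => ?_, fun ι m hm => (F2 ι _ m hm).1, fun ι m hm => ?_,
      fun ι ι' h m hm => hsh m hm (ι + 1) (ι' + 1) (by omega), fun ι m hm hi => ?_,
      fun ι m hm hi => (F2 ι _ m hm).2.2 hi, fun ι hι w hw hw' => F4 ι (q ι) w fun m => ?_⟩⟩
  · dsimp only
    split_ifs with h
    · exact Subset.rfl
    · have := anti m (Or.inr (by omega)) K 0 (Nat.zero_le _)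
      exact this.trans (if_neg h : (q 0).1 m = c m).subset
  · simpa only [if_pos hm] using (q (ι + 1)).2.2 m hm
  · exact h0 m hm ▸ hsh m hm (ι + 1) 0 (Nat.zero_le _)
  · exact h0 m hm ▸ anti m (Or.inl hi) (ι + 1) 0 (Nat.zero_le _)
  · rcases lt_or_ge m n with h | h
    · exact hw m h
    · have := hw' m h
      simp only [if_neg (show ¬ m < n by omega)] at this
      exact anti m (Or.inr h) K (ι + 1) hι this

/-- The starting sets of a request. -/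
def st (x : ℕ → (Y D)) (s l : ℕ) (O : ℕ → Set (Y D)) (m : ℕ) : Set (Y D) :=
  if m < s then cylinder (x m) l else O m

theorem stage (HF : ∀ A, IsOpen A → A.Nonempty →
      ∃ O a, IsOpen O ∧ O.Nonempty ∧ O ⊆ A ∧ Free p V O a)
    {Z : ℕ → Set (ℕ → (Y D))} (hZ : ∀ d, IsOpen (Z d)) (hd : Dense (⋃ d, Z d))
    {E : Set (ℕ → (Y D))} (hE : IsOpen E) (hE' : Dense E) (x : ℕ → (Y D)) (s l i K : ℕ) {n : ℕ}
    {c : ℕ → Set (Y D)} (hc : Cnd c) (hF : ∀ m < n, ∃ a, Free p V (c m) a) :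
    ∃ c' d Q, (Cnd c' ∧ ∀ m < n + 1, ∃ a, Free p V (c' m) a) ∧ (∀ m < n, c' m = c m) ∧
      (∀ m, c' m ⊆ c m) ∧
      (∀ w : ℕ → (Y D), (∀ m, n ≤ m → w m ∈ c' m) → (fun m => w (m + n)) ∈ Z d) ∧
      ((∀ m < n, st x s l c m ⊆ c m) → Fam p V c'
        (fun m => Classical.epsilon (Free p V (c m))) n i K (st x s l c) E Q) := by
  have h1 : ∃ c1 Q, Cnd c1 ∧ (∀ m < n, c1 m = c m) ∧ (∀ m, c1 m ⊆ c m) ∧
      ((∀ m < n, st x s l c m ⊆ c m) → Fam p V c1
        (fun m => Classical.epsilon (Free p V (c m))) n i K (st x s l c) E Q) := by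
    by_cases h : ∀ m < n, st x s l c m ⊆ c m
    · obtain ⟨c1, Q, a1, a2, a3, a4⟩ := family (p := p) (V := V) (u := st x s l c)
        (a := fun m => Classical.epsilon (Free p V (c m))) i K hc
        (fun m hm => Classical.epsilon_spec (hF m hm)) hE hE' fun m hm => ⟨by
          unfold st; split_ifs; exacts [cyl_open _ _, hc.op m], by
          unfold st; split_ifs; exacts [⟨_, self_mem_cylinder _ _⟩, hc.ne m], h m hm⟩
      exact ⟨c1, Q, a1, a2, a3, fun _ => a4⟩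
    · exact ⟨c, fun _ _ => univ, hc, fun _ _ => rfl, fun _ => Subset.rfl, fun h' => absurd h' h⟩
  obtain ⟨c1, Q, a1, a2, a3, a4⟩ := h1
  obtain ⟨L, hL⟩ := a1.fin
  have h2 : Cnd fun m => c1 (m + n) :=
    ⟨fun m => a1.op _, fun m => a1.ne _, L, fun m hm => hL _ (by omega)⟩
  obtain ⟨d, c2, b1, b2, -, b4⟩ := h2.shrink hZ hd 0
  obtain ⟨O, a, o1, o2, o3, o4⟩ := HF _ (b1.op 0) (b1.ne 0)
  obtain ⟨L', hL'⟩ := b1.fin
  let c' : ℕ → Set (Y D) := fun m => if m < n then c m else if m = n then O else c2 (m - n)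
  have e1 : ∀ m < n, c' m = c m := fun m hm => if_pos hm
  have e2 : c' n = O := by simp [c']
  have e3 : ∀ m, n ≤ m → c' m ⊆ c2 (m - n) := by
    intro m hm
    rcases hm.eq_or_lt with rfl | hm
    · rw [e2, Nat.sub_self]; exact o3
    · simp only [c', if_neg hm.le.not_gt, if_neg hm.ne']; exact Subset.rfl
  have e4 : ∀ m, n ≤ m → c' m ⊆ c1 m := fun m hm => (e3 m hm).trans (by
    have := b2 (m - n)
    rwa [Nat.sub_add_cancel hm] at this)
  refine ⟨c', d, Q, ⟨⟨fun m => ?_, fun m => ?_, L' + n + 1, fun m hm => ?_⟩, fun m hm => ?_⟩, e1,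
    fun m => ?_, fun w hw => b4 _ fun m => ?_, fun h => (a4 h).mono
      (fun m hm => (e1 m hm).trans (a2 m hm).symm) e4 (fun _ _ => rfl) fun _ _ => rfl⟩
  · simp only [c']; split_ifs; exacts [hc.op m, o1, b1.op _]
  · simp only [c']; split_ifs; exacts [hc.ne m, o2, b1.ne _]
  · simp only [c']
    rw [if_neg (by omega), if_neg (by omega), hL' _ (by omega)]
  · rcases (Nat.lt_succ_iff.1 hm).eq_or_lt with rfl | hm
    · exact ⟨a, e2 ▸ o4⟩
    · exact e1 m hm ▸ hF m hm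
  · rcases lt_or_ge m n with h | h
    · exact (e1 m h).subset
    · exact (e4 m h).trans (a3 m)
  · simpa using e3 (m + n) (by omega) (hw (m + n) (by omega))

theorem base [Countable D] [Nonempty D] (HF : ∀ A, IsOpen A → A.Nonempty →
      ∃ O a, IsOpen O ∧ O.Nonempty ∧ O ⊆ A ∧ Free p V O a)
    {Z : ℕ → Set (ℕ → (Y D))} (hZ : ∀ d, IsOpen (Z d)) (hd : Dense (⋃ d, Z d))
    {E : ℕ → Set (ℕ → (Y D))} (hE : ∀ j, IsOpen (E j)) (hE' : ∀ j, Dense (E j)) (K : ℕ → ℕ) :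
    ∃ (O : ℕ → Set (Y D)) (a d : ℕ → ℕ), (∀ m, IsOpen (O m) ∧ (O m).Nonempty) ∧
      (∀ i (w : ℕ → (Y D)), (∀ m, w m ∈ O m) → (fun m => w (m + i)) ∈ Z (d i)) ∧
      ∀ (x : ℕ → (Y D)) (s l i j : ℕ), (∀ m < s, cylinder (x m) l ⊆ O m) →
        ∃ n, s ≤ n ∧ ∃ Q, Fam p V O a n i (K n) (st x s l O) (E j) Q := by
  let T := fun n => {c : ℕ → Set (Y D) // Cnd c ∧ ∀ m < n, ∃ a, Free p V (c m) a}
  let r := TopologicalSpace.denseSeq (ℕ → (Y D))
  choose F d Q F1 F2 F3 F4 F5 using fun (n : ℕ) (c : T n) =>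
    stage HF hZ hd (hE n.unpair.2.unpair.2.unpair.2.unpair.2)
      (hE' n.unpair.2.unpair.2.unpair.2.unpair.2) (r n.unpair.2.unpair.1) n.unpair.1
      n.unpair.2.unpair.2.unpair.1 n.unpair.2.unpair.2.unpair.2.unpair.1 (K n) c.2.1 c.2.2
  let q : ∀ n, T n := fun n => Nat.rec (motive := T)
    ⟨fun _ => univ, ⟨fun _ => isOpen_univ, fun _ => univ_nonempty, 0, fun _ _ => rfl⟩,
      fun m hm => absurd hm (Nat.not_lt_zero m)⟩ (fun n c => ⟨F n c, F1 n c⟩) n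
  let O : ℕ → Set (Y D) := fun m => (q (m + 1)).1 m
  have e1 : ∀ m n, m < n → (q n).1 m = O m := by
    intro m n h
    induction h with
    | refl => rfl
    | @step k h ih => exact (F2 k (q k) m h).trans ih
  have e2 : ∀ m n n', n ≤ n' → (q n').1 m ⊆ (q n).1 m := by
    intro m n n' h
    induction h with
    | refl => exact Subset.rfl
    | @step k _ ih => exact (F3 k (q k) m).trans ih
  have e3 : ∀ n m, n ≤ m → O m ⊆ F n (q n) m := fun n m h => e2 m (n + 1) (m + 1) (by omega)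
  refine ⟨O, fun m => Classical.epsilon (Free p V (O m)), fun n => d n (q n),
    fun m => ⟨(q (m + 1)).2.1.op m, (q (m + 1)).2.1.ne m⟩,
    fun i w hw => F4 i (q i) w fun m hm => e3 i m hm (hw m), fun x s l i j hx => ?_⟩
  obtain ⟨k, hk⟩ := (TopologicalSpace.denseRange_denseSeq (ℕ → (Y D))).exists_mem_open
    (isOpen_set_pi (finite_Iio s) fun m _ => cyl_open (x m) l)
    ⟨x, fun m _ => self_mem_cylinder _ _⟩
  obtain ⟨n, hn⟩ : ∃ n, n = Nat.pair s (Nat.pair k (Nat.pair l (Nat.pair i j))) := ⟨_, rfl⟩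
  have h5 := F5 n (q n)
  rw [show n.unpair = (s, Nat.pair k (Nat.pair l (Nat.pair i j))) by simp [hn]] at h5
  simp only [Nat.unpair_pair] at h5
  have e4 : ∀ m < n, st x s l O m = st (r k) s l (q n).1 m := by
    intro m hm
    unfold st
    split_ifs with h
    · exact (mem_cylinder_iff_eq.1 (hk m h)).symm
    · exact (e1 m n hm).symm
  refine ⟨n, hn ▸ Nat.left_le_pair _ _, Q n (q n), (h5 fun m hm => ?_).mono
    (fun m hm => ((e1 m (n + 1) (by omega)).symm : O m = F n (q n) m)) (e3 n)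
    (fun m hm => by rw [e1 m n hm]) e4⟩
  rw [← e4 m hm, e1 m n hm]
  unfold st
  split_ifs with h
  exacts [hx m h, Subset.rfl]

end Pool.Agent.Lib.MP_5684f0_lc.G
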