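import Pool.Agent.Lib.MP_5684f0_lc.Defs

namespace Pool.Agent.Lib.MP_5684f0_lc.G

open Filter

open Classical in
/-- `j` alternating quantifiers, for infinitely many and for all but finitely many, over the bits
of `z`; the outermost one is for infinitely many iff the flag is true. -/
noncomputable def T : Bool → ℕ → Cs → Cs
  | _, 0, z => z
  | true, j + 1, z => fun q => decide (∃ᶠ t in atTop, T false j z (Nat.pair q t) = true)
  | false, j + 1, z => fun q => decide (∀ᶠ t in atTop, T true j z (Nat.pair q t) = true)

open Classical in
/-- A universal quantifier in front of `j` alternating quantifiers. -/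
noncomputable def P (j : ℕ) (z : Cs) : Cs := fun n =>
  decide (∀ s, T true j z (Nat.pair n s) = true)

/-- The additive Borel classes of Cantor space, starting with the open sets. -/
def Sg : ℕ → Set Cs → Prop
  | 0, A => IsOpen A
  | k + 1, A => ∃ B : ℕ → Set Cs, (∀ n, Sg k (B n)) ∧ A = ⋃ n, (B n)ᶜ

end Pool.Agent.Lib.MP_5684f0_lc.G
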