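import Pool.Agent.Lib.MP_5684f0_lc.G.Base

/-!
A game in which a builder answers the moves of a lower level, and the removal of one limit from
the letters that the builder reads.
-/

namespace Pool.Agent.Lib.MP_5684f0_lc.G

open Filter Topology Set PiNat

variable {D α Λ : Type} {p p' : Y D → ℕ → α} {O : ℕ → Set (Y D)}

/-- The images agree up to `M` on the boards below `M`. -/
def Agr (p : Y D → ℕ → α) (x w : ℕ → Y D) (M : ℕ) : Prop := ∀ m < M, p (x m) ∈ cylinder (p (w m)) M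

theorem Agr.trans {x y z : ℕ → Y D} {M M' : ℕ} (h : Agr p x y M') (h' : Agr p y z M)
    (hM : M ≤ M') : Agr p x z M :=
  fun m hm => cyl_trans (cylinder_anti _ hM (h m (hm.trans_le hM))) (h' m hm)

/-- A legal move of the lower level. -/
def Leg (O : ℕ → Set (Y D)) (x : ℕ → Y D) (b l : ℕ) (w : ℕ → Y D) (M : ℕ) : Prop :=
  (∀ m < b, w m ∈ cylinder (x m) l) ∧ (∀ m, w m ∈ O m) ∧ l ≤ M

/-- Agreement of the images under `p` gives agreement of the images under `p'`. -/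
def Lip {β : Type} (p : Y D → ℕ → α) (p' : Y D → ℕ → β) : Prop :=
  ∀ ⦃y y' : Y D⦄ ⦃M : ℕ⦄, p y ∈ cylinder (p y') M → p' y ∈ cylinder (p' y') M

/-- A strategy of the builder. -/
structure Pre (p : Y D → ℕ → α) (O : ℕ → Set (Y D)) (Λ : Type) where
  S : Type
  s0 : S
  x : S → ℕ → Y D
  b : S → ℕ
  l : S → ℕ
  R : S → Λ → (ℕ → Y D) → ℕ → S → Prop
  ok : ∀ s, b s ≤ l s ∧ (∀ m, x s m ∈ O m) ∧ ∀ m < b s, cylinder (x s m) (l s) ⊆ O m
  tot : ∀ s a w M, Leg O (x s) (b s) (l s) w M → ∃ s', R s a w M s'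
  resp : ∀ s a w M s', R s a w M s' → Leg O (x s) (b s) (l s) w M ∧ Agr p (x s') w M ∧ M < b s'

/-- Every play with the letters `u` is matched by a point with the property `G`. -/
def Pre.Win (σ : Pre p O Λ) (u : ℕ → Λ) (G : (ℕ → Y D) → Prop) : Prop :=
  ∀ (s : ℕ → σ.S) (w : ℕ → ℕ → Y D) (M : ℕ → ℕ), s 0 = σ.s0 →
    (∀ t, σ.R (s t) (u t) (w t) (M t) (s (t + 1))) → ∃ z, G z ∧ ∀ t, Agr p z (w t) (M t)

theorem Pre.one (σ : Pre p O Λ) (hp : Lip id p) {s s' : σ.S} {a : Λ} {w w' : ℕ → Y D} {M M' : ℕ}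
    (h : σ.R s a w M s') (h' : Leg O (σ.x s') (σ.b s') (σ.l s') w' M') :
    M ≤ M' ∧ Agr p w' w M := by
  obtain ⟨-, h1, h2⟩ := σ.resp _ _ _ _ _ h
  have h3 := (σ.ok s').1
  have h4 := h'.2.2
  exact ⟨by omega, fun m hm => cyl_trans (cylinder_anti _ (by omega)
    (hp (h'.1 m (by omega)))) (h1 m hm)⟩

theorem Pre.chain (σ : Pre p O Λ) (hp : Lip id p) {s : ℕ → σ.S} {u : ℕ → Λ} {w : ℕ → ℕ → Y D}
    {M : ℕ → ℕ} (h : ∀ t, σ.R (s t) (u t) (w t) (M t) (s (t + 1))) {t t' : ℕ} (ht : t ≤ t') :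
    M t ≤ M t' ∧ Agr p (w t') (w t) (M t) := by
  induction ht with
  | refl => exact ⟨le_rfl, fun m _ => self_mem_cylinder _ _⟩
  | @step k _ ih =>
    have h1 := σ.one hp (h k) (σ.resp _ _ _ _ _ (h (k + 1))).1
    exact ⟨ih.1.trans h1.1, h1.2.trans ih.2 ih.1⟩

theorem Pre.back (σ : Pre p O Λ) (hp : Lip id p) {s : ℕ → σ.S} {u : ℕ → Λ} {w : ℕ → ℕ → Y D}
    {M : ℕ → ℕ} {r h : ℕ} (hr : r ≤ h) (H : ∀ t < h, σ.R (s t) (u t) (w t) (M t) (s (t + 1)))
    {w' : ℕ → Y D} {M' : ℕ} (h' : Leg O (σ.x (s h)) (σ.b (s h)) (σ.l (s h)) w' M') :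
    σ.l (s r) ≤ M' ∧ ∀ m < σ.b (s r), p (w' m) ∈ cylinder (p (σ.x (s r) m)) (σ.l (s r)) := by
  induction hr generalizing w' M' with
  | refl => exact ⟨h'.2.2, fun m hm => hp (h'.1 m hm)⟩
  | @step k _ ih =>
    have h0 := H k (Nat.lt_succ_self k)
    have h1 := σ.one hp h0 h'
    have h2 := ih (fun t ht => H t (ht.trans (Nat.lt_succ_self k))) (σ.resp _ _ _ _ _ h0).1
    have h3 := (σ.ok (s r)).1
    exact ⟨h2.1.trans h1.1, fun m hm => cyl_trans (cylinder_anti _ h2.1 (h1.2 m (by omega)))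
      (h2.2 m hm)⟩

/-- A finite play. -/
structure Stk (σ : Pre p O Λ) where
  h : ℕ
  s : ℕ → σ.S
  a : ℕ → Λ
  w : ℕ → ℕ → Y D
  M : ℕ → ℕ
  z : s 0 = σ.s0
  pl : ∀ j < h, σ.R (s j) (a j) (w j) (M j) (s (j + 1))

/-- One round of a finite play. -/
def Stk.ent {σ : Pre p O Λ} (k : Stk σ) (j : ℕ) := (k.s (j + 1), k.a j, k.w j, k.M j)

/-- The strategy one level down: the finite play is cut at the first changed letter. -/
def Pre.down [Inhabited Λ] (σ : Pre p O Λ) (hp : Lip id p) (hpp : Lip p p')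
    (hA : ∀ x z l M, p x ∈ cylinder (p z) l → ∃ x' ∈ cylinder z l, p' x' ∈ cylinder (p' x) M) :
    Pre p' O (ℕ → Λ) where
  S := Stk σ
  s0 := ⟨0, fun _ => σ.s0, default, fun _ => σ.x σ.s0, default, rfl, fun _ h => absurd h (by omega)⟩
  x k := σ.x (k.s k.h)
  b k := σ.b (k.s k.h)
  l k := σ.l (k.s k.h)
  R k a w M k' := Leg O (σ.x (k.s k.h)) (σ.b (k.s k.h)) (σ.l (k.s k.h)) w M ∧ ∃ r ≤ k.h,
    k'.h = r + 1 ∧ (r < k.h → a r ≠ k.a r) ∧ (∀ j < r, k'.ent j = k.ent j) ∧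
      (∀ j ≤ r, k'.a j = a j) ∧ k'.M r = M ∧ Agr p' (k'.w r) w M
  ok k := σ.ok _
  tot k a w M h := by
    classical
    have ex : ∃ j, k.h ≤ j ∨ a j ≠ k.a j := ⟨k.h, Or.inl le_rfl⟩
    have h1 := Nat.find_spec ex
    have h2 := fun j => Nat.find_min ex (m := j)
    have h3 : Nat.find ex ≤ k.h := Nat.find_min' ex (Or.inl le_rfl)
    generalize Nat.find ex = r at h1 h2 h3
    obtain ⟨b1, b2⟩ := σ.back hp h3 k.pl h
    have h4 : ∀ m, ∃ y, (m < σ.b (k.s r) → y ∈ cylinder (σ.x (k.s r) m) (σ.l (k.s r))) ∧ y ∈ O m ∧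
        p' y ∈ cylinder (p' (w m)) M := fun m => by
      by_cases hm : m < σ.b (k.s r)
      · obtain ⟨y, y1, y2⟩ := hA _ _ _ M (b2 m hm)
        exact ⟨y, fun _ => y1, (σ.ok _).2.2 m hm y1, y2⟩
      · exact ⟨w m, fun h' => absurd h' hm, h.2.1 m, self_mem_cylinder _ _⟩
    choose W c1 c2 c3 using h4
    obtain ⟨s', hs'⟩ := σ.tot (k.s r) (a r) W M ⟨c1, c2, b1⟩
    refine ⟨⟨r + 1, Function.update k.s (r + 1) s', Function.update k.a r (a r),
      Function.update k.w r W, Function.update k.M r M, by simpa using k.z, fun j hj => ?_⟩, h, r,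
      h3, rfl, fun hr => h1.resolve_left (by omega), fun j hj => by simp [Stk.ent, hj.ne],
      fun j hj => ?_, by simp, by
        dsimp only; rw [Function.update_self]; exact fun m _ => c3 m⟩
    · rcases (Nat.lt_succ_iff.1 hj).eq_or_lt with rfl | hj
      · simpa using hs'
      · simpa [hj.ne, show j ≠ r + 1 by omega] using k.pl j (by omega)
    · rcases hj.eq_or_lt with rfl | hj
      · simp
      · simpa [hj.ne] using (not_not.1 (not_or.1 (h2 j hj)).2).symm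
  resp k a w M k' h := by
    obtain ⟨h0, r, -, h1, -, -, -, h2, h3⟩ := h
    obtain ⟨-, c1, c2⟩ := σ.resp _ _ _ _ _ (k'.pl r (by omega))
    rw [h1, ← h2]
    exact ⟨h2 ▸ h0, Agr.trans (fun m hm => hpp (c1 m hm)) (h2 ▸ h3) le_rfl, c2⟩

theorem Pre.Win.down [Inhabited Λ] {σ : Pre p O Λ} (hp : Lip id p) (hpp : Lip p p')
    (hA : ∀ x z l M, p x ∈ cylinder (p z) l → ∃ x' ∈ cylinder z l, p' x' ∈ cylinder (p' x) M)
    {u : ℕ → Λ} {G : (ℕ → Y D) → Prop} (hw : σ.Win u G) {γ : ℕ → ℕ → Λ}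
    (hγ : ∀ j, ∀ᶠ t in atTop, γ t j = u j) : (σ.down hp hpp hA).Win γ G := by
  intro (k : ℕ → Stk σ) w M h0 h
  have ch := fun t t' ht => (σ.down hp hpp hA).chain (fun _ _ _ h => hpp (hp h)) h (t := t) (t' := t') ht
  choose r r1 r2 r3 r4 r5 r6 r7 using fun t => (h t).2
  have hγ' : ∀ n, ∀ᶠ t in atTop, ∀ j ≤ n, γ t j = u j := fun n => by
    simpa [Nat.lt_succ_iff] using (Finset.eventually_all (Finset.range (n + 1))).2 fun j _ => hγ j
  have big : ∀ t n, n ≤ (k t).h ∧ (∀ j < n, (k t).a j = u j) → (∀ j ≤ n, γ t j = u j) → n ≤ r t :=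
    fun t n h1 h2 => not_lt.1 fun h3 =>
      r3 t (h3.trans_le h1.1) ((h2 _ h3.le).trans (h1.2 _ h3).symm)
  have good : ∀ n, ∀ᶠ t in atTop, n ≤ (k t).h ∧ ∀ j < n, (k t).a j = u j := by
    intro n
    induction n with
    | zero => exact Eventually.of_forall fun t => ⟨Nat.zero_le _, fun j hj => absurd hj (by omega)⟩
    | succ n ih =>
      obtain ⟨T, hT⟩ := eventually_atTop.1 (ih.and (hγ' n))
      refine eventually_atTop.2 ⟨T + 1, fun t ht => ?_⟩
      obtain ⟨t, rfl⟩ : ∃ t', t = t' + 1 := ⟨t - 1, by omega⟩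
      have h1 := hT t (by omega)
      have h2 := big t n h1.1 h1.2
      exact ⟨by rw [r2]; omega, fun j hj => (r5 t j (by omega)).trans (h1.2 j (by omega))⟩
  have stab : ∀ j, ∃ e, ∀ᶠ t in atTop, (k t).ent j = e := fun j => by
    obtain ⟨T, hT⟩ := eventually_atTop.1 ((good (j + 1)).and (hγ' (j + 1)))
    refine ⟨(k T).ent j, eventually_atTop.2 ⟨T, fun t ht => ?_⟩⟩
    induction ht with
    | refl => rfl
    | @step t ht ih => exact (r4 t j (big t _ (hT t ht).1 (hT t ht).2)).trans ih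
  choose e he using stab
  obtain ⟨z, z1, z2⟩ := hw (fun j => Nat.casesOn j σ.s0 fun j => (e j).1) (fun j => (e j).2.2.1)
    (fun j => (e j).2.2.2) rfl fun j => by
      obtain ⟨t, ⟨⟨h1, h2⟩, h3⟩, h4⟩ := (((good (j + 1)).and (he j)).and (he (j - 1))).exists
      have h5 := (k t).pl j h1
      rw [h2 j (Nat.lt_succ_self j)] at h5
      rcases j with _ | j
      · rw [(k t).z] at h5
        simpa only [← h3, Stk.ent, Nat.rec_zero] using h5
      · simpa only [← h3, ← (show (k t).ent j = e j from h4), Stk.ent] using h5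
  refine ⟨z, z1, fun t0 => ?_⟩
  have inv : ∀ t, (k t).h ≤ t ∧ (t0 < (k t).h →
      M t0 ≤ (k t).M t0 ∧ Agr p' ((k t).w t0) (w t0) (M t0)) := by
    intro t
    induction t with
    | zero => rw [h0]; exact ⟨le_rfl, fun h => absurd h (Nat.not_lt_zero _)⟩
    | succ t ih =>
      have h1 := r1 t
      have h2 := r2 t
      refine ⟨by omega, fun h3 => ?_⟩
      rcases (show t0 ≤ r t by omega).eq_or_lt with h4 | h4
      · have h5 := ch t0 t (by omega)
        have h6 := r7 t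
        have h7 := r6 t
        rw [← h4] at h6 h7
        exact ⟨h7 ▸ h5.1, h6.trans h5.2 h5.1⟩
      · have h5 := r4 t t0 h4
        simp only [Stk.ent, Prod.mk.injEq] at h5
        rw [h5.2.2.1, h5.2.2.2]
        exact ih.2 (by omega)
  obtain ⟨t, h1, h2⟩ := ((good (t0 + 1)).and (he t0)).exists
  have h3 := z2 t0
  simp only [← h2, Stk.ent] at h3
  exact Agr.trans (fun m hm => hpp (h3 m hm)) ((inv t).2 h1.1).2 ((inv t).2 h1.1).1

/-- Iterated limits of locally constant functions. -/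
def Ms {Λ : Type} : ℕ → (Cs → Λ) → Prop
  | 0, φ => LC univ φ
  | k + 1, φ => ∃ ψ : ℕ → Cs → Λ, (∀ s, Ms k (ψ s)) ∧ ∀ y, ∀ᶠ s in atTop, ψ s y = φ y

theorem Ms.map₂ {A B C : Type} (F : A → B → C) : ∀ {k : ℕ} {φ : Cs → A} {ψ : Cs → B},
    Ms k φ → Ms k ψ → Ms k fun y => F (φ y) (ψ y)
  | 0, _, _, h, h' => fun y hy => by
    filter_upwards [h y hy, h' y hy] with y' a b
    rw [a, b]
  | _ + 1, _, _, ⟨φ, a, b⟩, ⟨ψ, c, d⟩ => ⟨fun s y => F (φ s y) (ψ s y),
      fun s => (a s).map₂ F (c s), fun y => by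
    filter_upwards [b y, d y] with s h h'
    rw [h, h']⟩

theorem Ms.const {A : Type} (a : A) : ∀ k, Ms k fun _ => a
  | 0 => fun _ _ => Eventually.of_forall fun _ => rfl
  | k + 1 => ⟨fun _ _ => a, fun _ => const a k, fun _ => Eventually.of_forall fun _ => rfl⟩

theorem Ms.fin {A C : Type} {k : ℕ} {φ : ℕ → Cs → A} (h : ∀ m, Ms k (φ m)) (d : ℕ → A)
    (F : (ℕ → A) → C) (s : ℕ) : Ms k fun y => F fun m => if m < s then φ m y else d m := by
  induction s generalizing C with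
  | zero => simpa using Ms.const (F d) k
  | succ s ih =>
    convert (ih id).map₂ (fun a b => F (Function.update a s b)) (h s) using 3 with y
    funext m
    rcases lt_trichotomy m s with h | rfl | h
    · simp [h, h.ne, h.trans s.lt_succ_self]
    · simp
    · simp [h.ne', h.not_gt, show ¬ m < s + 1 by omega]

theorem run {K : ℕ} {p : ℕ → Y D → ℕ → α} (hp : ∀ i, Lip id (p i)) (hpp : ∀ i, Lip (p i) (p (i + 1)))
    (hA : ∀ i < K, ∀ x z l M, p i x ∈ cylinder (p i z) l →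
      ∃ x' ∈ cylinder z l, p (i + 1) x' ∈ cylinder (p (i + 1) x) M)
    {G : Cs → (ℕ → Y D) → Prop} (k : ℕ) : ∀ (i : ℕ) {Λ : Type} [Inhabited Λ] (σ : Pre (p i) O Λ)
      (u : Cs → ℕ → Λ), i + k = K → (∀ t, Ms k fun y => u y t) → (∀ y, σ.Win (u y) (G y)) →
      ∃ w : Cs → ℕ → Y D, (∀ m n, LC univ fun y => p K (w y m) n) ∧ ∀ y, G y (w y) := by
  induction k with
  | succ k ih =>
    intro i Λ _ σ u hi hu hw
    choose ψ h1 h2 using hu
    exact ih (i + 1) (σ.down (hp i) (hpp i) (hA i (by omega)))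
      (fun y s t => if t < s then ψ t s y else default) (by omega)
      (fun s => Ms.fin (fun t => h1 t s) _ id s) fun y => (hw y).down _ _ _ fun j => by
        filter_upwards [h2 j y, eventually_gt_atTop j] with s a b
        rw [if_pos b, a]
  | zero =>
    rintro i Λ _ σ u rfl hu hw
    choose F hF using fun s a => σ.tot s a (σ.x s) (σ.l s)
      ⟨fun m _ => self_mem_cylinder _ _, (σ.ok s).2.1, le_rfl⟩
    let S : Cs → ℕ → σ.S := fun y t => Nat.rec σ.s0 (fun t s => F s (u y t)) t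
    have hS : ∀ y t, S y (t + 1) = F (S y t) (u y t) := fun _ _ => rfl
    have hlc : ∀ t, LC univ fun y => S y t := by
      intro t
      induction t with
      | zero => exact fun y _ => Eventually.of_forall fun _ => rfl
      | succ t ih =>
        intro y hy
        filter_upwards [ih y hy, hu t y hy] with y' h1 h2
        rw [hS, hS, h1, h2]
    have hl : ∀ y t, t ≤ σ.l (S y t) := fun y t => by
      induction t with
      | zero => exact Nat.zero_le _
      | succ t ih => exact (ih.trans_lt (σ.resp _ _ _ _ _ (hF _ (u y t))).2.2).trans_le (σ.ok _).1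
    choose w w1 w2 using fun y => hw y (S y) _ _ rfl fun t => hF _ _
    refine ⟨w, fun m n y hy => ?_, w1⟩
    have e := fun y => w2 y (max m n + 1) m (by have := hl y (max m n + 1); omega) n
      (by have := hl y (max m n + 1); omega)
    filter_upwards [hlc (max m n + 1) y hy] with y' h
    exact (e y').trans (h ▸ (e y).symm)

end Pool.Agent.Lib.MP_5684f0_lc.G
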