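import Pool.Agent.Lib.MP_5684f0_lc.G.Game
import Pool.Agent.Lib.MP_5684f0_lc.G.Defs
import Pool.Agent.Lib.MP_5684f0_lc.H.Three

/-! Finitely many nested limits, and bits that all but the three upper levels leave free. -/

namespace Pool.Agent.Lib.MP_5684f0_lc.G

open Filter Topology Set PiNat

/-- The letters of a board: a top bit, and a modulus and an early value for each level. -/
abbrev Dk (K : ℕ) := Bool × (Fin K → ℕ × Bool)

variable {K : ℕ}

/-- The moduli and early values of level `i`. -/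
def cm (y : Y (Dk K)) (i n : ℕ) : ℕ × Bool := if h : i < K then (y n).2 ⟨i, h⟩ else default

/-- The real of level `i`. -/
def Hl (y : Y (Dk K)) : ℕ → Cs
  | 0 => fun n => (y n).1
  | i + 1 => H.S (Hl y i) (cm y i)

/-- The data from level `i` on. -/
def R (i : ℕ) (y : Y (Dk K)) (n : ℕ) : Bool × (ℕ → ℕ × Bool) :=
  (Hl y i n, fun j => if i ≤ j then cm y j n else default)

theorem R_iff {i M : ℕ} {y z : Y (Dk K)} : R i y ∈ cylinder (R i z) M ↔
    Hl y i ∈ cylinder (Hl z i) M ∧ ∀ j, i ≤ j → cm y j ∈ cylinder (cm z j) M :=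
  ⟨fun h => ⟨fun n hn => congrArg Prod.fst (h n hn), fun j hj n hn => by
    simpa only [R, if_pos hj] using congrFun (congrArg Prod.snd (h n hn)) j⟩,
    fun h n hn => Prod.ext (h.1 n hn) (funext fun j => by
      simp only [R]; split_ifs with hj; exacts [h.2 j hj n hn, rfl])⟩

theorem rs (i : ℕ) : Lip (R (K := K) i) (R (i + 1)) := fun _ _ _ h =>
  R_iff.2 ⟨H.S_congr (R_iff.1 h).1 ((R_iff.1 h).2 i le_rfl),
    fun j hj => (R_iff.1 h).2 j (by omega)⟩

theorem rl (i : ℕ) : Lip id (R (K := K) i) := by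
  induction i with
  | zero => exact fun y z M h => R_iff.2 ⟨fun n hn => congrArg Prod.fst (h n hn),
      fun j _ n hn => by simp only [cm, show y n = z n from h n hn]⟩
  | succ i ih => exact fun y z M h => rs i (ih h)

theorem amal {i : ℕ} (hi : i < K) (x z : Y (Dk K)) (l M : ℕ) (h : R i x ∈ cylinder (R i z) l) :
    ∃ x' ∈ cylinder z l, R (i + 1) x' ∈ cylinder (R (i + 1) x) M ∧ ∀ n, (x' n).1 = (z n).1 := by
  obtain ⟨h1, h2⟩ := R_iff.1 h
  obtain ⟨k, k1, k2⟩ := H.S_fix h1 (cm x i) M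
  let x' : Y (Dk K) := fun n => ((z n).1, fun j =>
    if j.1 < i then cm z j n else if j.1 = i then k n else cm x j n)
  have e : ∀ j n, cm x' j n = if j < i then cm z j n else if j = i then k n else cm x j n := by
    intro j n
    by_cases hj : j < K
    · simp only [cm, dif_pos hj, x']
    · simp only [cm, dif_neg hj, if_neg (show ¬ j < i by omega), if_neg (show ¬ j = i by omega)]
  have e1 : ∀ j ≤ i, Hl x' j = Hl z j := fun j hj => by
    induction j with
    | zero => rfl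
    | succ j ih =>
      rw [Hl, Hl, ih (by omega)]
      exact congrArg _ (funext fun n => by rw [e, if_pos (show j < i from hj)])
  refine ⟨x', fun n hn => Prod.ext rfl (funext fun j => ?_), R_iff.2 ⟨?_, fun j hj n _ => by
    rw [e, if_neg (by omega), if_neg (by omega)]⟩, fun _ => rfl⟩
  · have e2 : cm z j n = (z n).2 j := dif_pos j.2
    simp only [x']
    split_ifs with a b
    · exact e2
    · exact (k1 n hn).trans ((h2 i le_rfl n hn).trans (b ▸ e2))
    · exact (h2 j (by omega) n hn).trans e2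
  · rwa [Hl, Hl, e1 i le_rfl, show cm x' i = k from funext fun n => by simp [e]]

theorem T_Hl (y : Y (Dk K)) (j : ℕ) : ∀ b i, T b j (Hl y (i + j)) = Hl y i := by
  induction j with
  | zero => intro b i; cases b <;> rfl
  | succ j ih =>
    intro b i
    funext q
    have h := (H.S_lim (Hl y i) (cm y i) q).mono fun r h => congrArg (· = true) h
    rw [show i + (j + 1) = i + 1 + j by omega]
    cases b <;> simp only [T, ih, Hl, Bool.eq_iff_iff (b := Hl y i q), decide_eq_true_eq]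
    exacts [(eventually_congr (h.mono fun r h => h.to_iff)).trans eventually_const,
      (frequently_congr (h.mono fun r h => h.to_iff)).trans frequently_const]

theorem op_of {D α : Type} [TopologicalSpace D] [DiscreteTopology D] {F : Y D → ℕ → α}
    (h : Lip id F) (z : ℕ → α) (M : ℕ) : IsOpen {y | F y ∈ cylinder z M} :=
  isOpen_iff_mem_nhds.2 fun y hy => mem_of_superset
    ((cyl_open y M).mem_nhds (self_mem_cylinder y M)) fun _ h' => cyl_trans (h h') hy

theorem continuous_Hl (i : ℕ) : Continuous fun y : Y (Dk K) => Hl y i :=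
  continuous_pi fun q => continuous_iff_continuousAt.2 fun y => continuousAt_const.congr
    (Eventually.mono ((cyl_open y (q + 1)).mem_nhds (self_mem_cylinder y _)) fun _ h =>
      ((R_iff.1 (rl i h)).1 q (Nat.lt_succ_self q)).symm)

theorem exists_free {k : ℕ} {h : Y (Dk (k + 3)) → Cs} {V : ℕ → Bool → Set (Y (Dk (k + 3)))}
    (hV : ∀ a b, IsOpen (V a b)) (hG : ∀ᶠ y in residual _, ∀ a, y ∈ V a (h y a))
    (hh : ∀ y, leT (P (k + 2) (Hl y (k + 3))) (h y)) (A : Set (Y (Dk (k + 3)))) (hA : IsOpen A)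
    (hne : A.Nonempty) : ∃ O a, IsOpen O ∧ O.Nonempty ∧ O ⊆ A ∧ Free (R 3) V O a := by
  have hP : ∀ (y : Y (Dk (k + 3))) n, P (k + 2) (Hl y (k + 3)) n = true ↔
      ∀ s, Hl y 1 (Nat.pair n s) = true := fun y n => by
    rw [show k + 3 = 1 + (k + 2) by omega |> congrArg (Hl y)]
    simp only [P, T_Hl, decide_eq_true_eq]
  by_contra hno
  have s1 : ∀ O a, IsOpen O → O.Nonempty → O ⊆ A →
      ∃ y1 ∈ O, ∃ l b, ∀ y ∈ O, R 2 y ∈ cylinder (R 2 y1) l → y ∉ V a b := by
    intro O a o1 o2 o3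
    by_contra hc
    push Not at hc
    refine hno ⟨O, a, o1, o2, o3, fun B b1 ⟨y1, hy1⟩ b3 b => ?_⟩
    obtain ⟨l, hl⟩ := (ev_cyl (b1.mem_nhds hy1)).exists
    obtain ⟨y, c1, c2, c3⟩ := hc y1 (b3 hy1) l b
    refine ⟨(O ∩ V a b) ∩ {y | R 2 y ∈ cylinder (R 2 y1) l}, (o1.inter (hV a b)).inter
      (op_of (rl 2) _ _), ⟨y, ⟨c1, c3⟩, c2⟩, inter_subset_left, fun z hz M => ?_⟩
    obtain ⟨x, k1, k2, -⟩ := amal (by omega) z y1 l M hz.2
    exact ⟨x, hl k1, k2⟩
  have s2 : ∀ (y0 : Y (Dk (k + 3))) (m0 a : ℕ), ∀ᶠ y in residual _, cylinder y0 m0 ⊆ A →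
      y ∈ cylinder y0 m0 →
      ∃ M b, ∀ y' ∈ cylinder y0 m0, R 1 y' ∈ cylinder (R 1 y) M → y' ∉ V a b := by
    intro y0 m0 a
    refine residual_of_dense_open (isOpen_iff_mem_nhds.2 fun y hy => ?_)
      (dense_iff_inter_open.2 fun U hU ⟨z, hz⟩ => ?_)
    · by_cases h1 : cylinder y0 m0 ⊆ A ∧ y ∈ cylinder y0 m0
      · obtain ⟨M, b, hb⟩ := hy h1.1 h1.2
        filter_upwards [(cyl_open y M).mem_nhds (self_mem_cylinder y M)] with y1 h2 _ _
        exact ⟨M, b, fun y' h3 h4 => hb y' h3 (cyl_trans h4 (rl 1 h2))⟩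
      · filter_upwards [(cyl_open y m0).mem_nhds (self_mem_cylinder y m0)] with y1 h2 h3 h4
        exact absurd ⟨h3, cyl_trans (cyl_symm h2) h4⟩ h1
    by_cases h1 : cylinder y0 m0 ⊆ A ∧ z ∈ cylinder y0 m0
    swap
    · exact ⟨z, hz, fun h2 h3 => absurd ⟨h2, h3⟩ h1⟩
    obtain ⟨m, hm⟩ := (ev_cyl (hU.mem_nhds hz)).exists
    obtain ⟨y1, c1, l, b, c2⟩ := s1 (cylinder y0 m0 ∩ {y | R 1 y ∈ cylinder (R 1 z) m}) a
      ((cyl_open _ _).inter (op_of (rl 1) _ _)) ⟨z, h1.2, self_mem_cylinder _ _⟩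
      (inter_subset_left.trans h1.1)
    obtain ⟨y, h2, k2, -⟩ := amal (by omega) y1 z m l c1.2
    exact ⟨y, hm h2, fun _ _ => ⟨max l m, b, fun y' h3 h4 => c2 y' ⟨h3, cyl_trans
      (cylinder_anti _ (le_max_right l m) h4) (rl 1 h2)⟩ (cyl_trans
      (rs 1 (cylinder_anti _ (le_max_left l m) h4)) k2)⟩⟩
  let r := TopologicalSpace.denseSeq (Y (Dk (k + 3)))
  obtain ⟨G, g1, g2, g3⟩ := mem_residual.1 (hG.and (eventually_countable_forall.2 fun i =>
    eventually_countable_forall.2 fun m0 => eventually_countable_forall.2 (s2 (r i) m0)))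
  obtain ⟨z, z1, z2⟩ := (g2.dense_iUnion_interior_of_closed g3
    (f := fun e => closure {y | y ∈ G ∧
      U.ev (h y) e = fun n => Part.some (bit (P (k + 2) (Hl y (k + 3)) n))})
    (fun _ => isClosed_closure) fun y hy => by
      obtain ⟨e, he⟩ := U.exists_code (leT_iff.1 (hh y))
      exact mem_iUnion.2 ⟨e, subset_closure ⟨hy, he⟩⟩).inter_open_nonempty A hA hne
  obtain ⟨e, he⟩ := mem_iUnion.1 z2
  obtain ⟨i, hk⟩ := (TopologicalSpace.denseRange_denseSeq (Y (Dk (k + 3)))).exists_mem_open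
    (hA.inter isOpen_interior) ⟨z, z1, he⟩
  obtain ⟨n, hn⟩ := (ev_cyl ((hA.inter isOpen_interior).mem_nhds hk)).exists
  have pick : ∀ W : Set (Y (Dk (k + 3))), IsOpen W → (cylinder (r i) n ∩ W).Nonempty →
      ∃ y ∈ cylinder (r i) n ∩ W, y ∈ G ∧
        U.ev (h y) e = fun n => Part.some (bit (P (k + 2) (Hl y (k + 3)) n)) := fun W hW ⟨y, hy⟩ =>
    mem_closure_iff.1 (interior_subset (hn hy.1).2) _ ((cyl_open _ _).inter hW) hy
  have opn : ∀ P : Dk (k + 3) → Prop, IsOpen {y : Y (Dk (k + 3)) | P (y n)} := fun P =>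
    (isOpen_discrete {d | P d}).preimage (continuous_apply n)
  obtain ⟨y, ⟨y1, y2⟩, y3, y4⟩ := pick _ (opn fun d => d = (true, fun _ => (0, true)))
    ⟨Function.update (r i) n (true, fun _ => (0, true)),
      fun i hi => Function.update_of_ne hi.ne _ _, by simp⟩
  have t1 : P (k + 2) (Hl y (k + 3)) n = true := (hP y n).2 fun s => by
    simp [Hl, H.S, cm, show y n = _ from y2]
  obtain ⟨k0, hk0⟩ := exists_cyl_subset (U.ev_open (h y) e n 1 (by simp [y4, bit, t1]))
  choose M b hb using fun a => (g1 y3).2 i n a (fun _ h => (hn h).1) y1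
  have t0 : y ∈ cylinder (Function.update y n (false, (y n).2)) n :=
    fun i hi => by rw [Function.update_of_ne hi.ne]
  obtain ⟨x, k1, k2, k3⟩ := amal (i := 0) (by omega) y _ n ((Finset.range k0).sup M) (rl 0 t0)
  obtain ⟨y', ⟨a1, a2, a3⟩, a4, a5⟩ := pick _
    ((op_of (rl 1) (R 1 y) ((Finset.range k0).sup M)).inter (opn fun d => d.1 = false))
    ⟨x, cyl_trans k1 (cyl_trans (cyl_symm t0) y1), k2, by simpa using k3 n⟩
  have t2 : h y' ∈ cylinder (h y) k0 := fun a ha => by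
    have b1 := hb a y y1 (self_mem_cylinder _ _)
    have b2 := hb a y' a1 (cylinder_anti _ (Finset.le_sup (Finset.mem_range.2 ha)) a2)
    have b3 : h y a ≠ b a := fun h => b1 (h ▸ (g1 y3).1 a)
    have b4 : h y' a ≠ b a := fun h => b2 (h ▸ (g1 a4).1 a)
    revert b3 b4
    cases h y a <;> cases h y' a <;> cases b a <;> simp
  have t3 : P (k + 2) (Hl y' (k + 3)) n = true :=
    by_contra fun h => by simpa [a5, bit, h] using hk0 t2
  obtain ⟨s, hs⟩ := (H.S_lim (Hl y' 0) (cm y' 0) n).exists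
  have t4 := hs.symm.trans ((hP y' n).1 t3 s)
  exact Bool.false_ne_true ((show (y' n).1 = false from a3).symm.trans t4)

end Pool.Agent.Lib.MP_5684f0_lc.G
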