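import Pool.Agent.Lib.MP_5684f0_lc.G.Game

/-!
The finite injury simulation: a point of the base that meets countably many dense open sets and
follows finitely many changes of mind on each board.
-/

namespace Pool.Agent.Lib.MP_5684f0_lc.G

open Filter Topology Set PiNat

/-- A state of the construction: height, break points, families, current witness. -/
structure Sta (D : Type) where
  h : ℕ
  N : ℕ → ℕ
  Q : ℕ → ℕ → ℕ → Set (Y D)
  x : ℕ → Y D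

variable {D α : Type} {p : Y D → ℕ → α} {V : ℕ → Bool → Set (Y D)} {O : ℕ → Set (Y D)}
  {a K : ℕ → ℕ} {E : ℕ → Set (ℕ → Y D)}

/-- The invariant of the construction for the current indices `v`. -/
structure Inv (p : Y D → ℕ → α) (V : ℕ → Bool → Set (Y D)) (O : ℕ → Set (Y D)) (a K : ℕ → ℕ)
    (E : ℕ → Set (ℕ → Y D)) (v : ℕ → ℕ) (σ : Sta D) : Prop where
  zero : σ.N 0 = 0
  mono : ∀ j j', j < j' → j' ≤ σ.h → σ.N j < σ.N j'
  fam : ∀ j < σ.h, ∃ u, Fam p V O a (σ.N (j + 1)) (σ.N j) (K (σ.N (j + 1))) u (E j) (σ.Q j) ∧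
    ∀ j' < j, ∀ m < σ.N (j' + 1), u m ⊆ σ.Q j' (v (σ.N (j' + 1))) m
  mem : ∀ m, σ.x m ∈ O m
  memQ : ∀ j < σ.h, ∀ m < σ.N (j + 1), σ.x m ∈ σ.Q j (v (σ.N (j + 1))) m

theorem Inv.le {v : ℕ → ℕ} {σ : Sta D} (h : Inv p V O a K E v σ) {j j' : ℕ} (h1 : j ≤ j')
    (h2 : j' ≤ σ.h) : σ.N j ≤ σ.N j' := by
  rcases h1.eq_or_lt with rfl | h1
  exacts [le_rfl, (h.mono _ _ h1 h2).le]

theorem Inv.pop {v v' : ℕ → ℕ} {σ : Sta D} (h : Inv p V O a K E v σ) (hv : ∀ n, v' n ≤ v n)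
    (t : ℕ) : ∃ h1 x1, Inv p V O a K E v' ⟨h1, σ.N, σ.Q, x1⟩ ∧
      (∀ m, p (x1 m) ∈ cylinder (p (σ.x m)) t) ∧ h1 ≤ σ.h ∧
      ∀ j < σ.h, (∀ j' < j, v' (σ.N (j' + 1)) = v (σ.N (j' + 1))) → j < h1 := by
  classical
  by_cases hc : ∃ j, j < σ.h ∧ v' (σ.N (j + 1)) ≠ v (σ.N (j + 1))
  swap
  · push Not at hc
    refine ⟨σ.h, σ.x, ⟨h.zero, h.mono, fun j hj => ?_, h.mem, fun j hj m hm => ?_⟩,
      fun m => self_mem_cylinder _ _, le_rfl, fun j hj _ => hj⟩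
    · obtain ⟨u, h1, h2⟩ := h.fam j hj
      exact ⟨u, h1, fun j' hj' m hm => by rw [hc j' (hj'.trans hj)]; exact h2 j' hj' m hm⟩
    · rw [hc j hj]; exact h.memQ j hj m hm
  obtain ⟨hr, hr'⟩ := Nat.find_spec hc
  have hlt : ∀ j < Nat.find hc, v' (σ.N (j + 1)) = v (σ.N (j + 1)) := fun j hj => by
    by_contra h'
    exact Nat.find_min hc hj ⟨hj.trans hr, h'⟩
  generalize Nat.find hc = r at hr hr' hlt
  obtain ⟨u, hu, hu'⟩ := h.fam r hr
  have h1 : ∀ m, ∃ y, p y ∈ cylinder (p (σ.x m)) t ∧ y ∈ O m ∧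
      (m < σ.N (r + 1) → y ∈ σ.Q r (v' (σ.N (r + 1))) m) := by
    intro m
    by_cases hm : m < σ.N (r + 1)
    · obtain ⟨y, y1, y2⟩ := hu.sh _ _ (hv _) m hm _ (h.memQ r hr m hm) t
      exact ⟨y, y2, hu.sub _ m hm y1, fun _ => y1⟩
    · exact ⟨σ.x m, self_mem_cylinder _ _, h.mem m, fun h' => absurd h' hm⟩
  choose x1 b1 b2 b3 using h1
  refine ⟨r + 1, x1, ⟨h.zero, fun j j' h1 h2 => h.mono j j' h1 (le_trans h2 hr), fun j hj => ?_,
    b2, fun j hj m hm => ?_⟩, b1, hr, fun j _ hj => ?_⟩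
  · have hj : j < r + 1 := hj
    obtain ⟨u, h1, h2⟩ := h.fam j (by omega)
    exact ⟨u, h1, fun j' hj' m hm => by rw [hlt j' (by omega)]; exact h2 j' hj' m hm⟩
  · rcases (Nat.lt_succ_iff.1 hj).eq_or_lt with rfl | hj
    · exact b3 m hm
    · have h2 : m < σ.N r := lt_of_lt_of_le hm (h.le hj hr.le)
      have h3 : m < σ.N (r + 1) := h2.trans (h.mono _ _ (Nat.lt_succ_self r) hr)
      rw [hlt j hj]; exact hu' j hj m hm (hu.low _ m h3 h2 (b3 m h3))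
  · by_contra h'
    exact hr' (hj r (by omega))

variable [TopologicalSpace D] [DiscreteTopology D]

/-- The cylinders of length `l` on the boards below `s` respect the invariant. -/
def Zone (O : ℕ → Set (Y D)) (v : ℕ → ℕ) (σ : Sta D) (s l : ℕ) : Prop :=
  ∀ m < s, cylinder (σ.x m) l ⊆
    {y | y ∈ O m ∧ ∀ j < σ.h, m < σ.N (j + 1) → y ∈ σ.Q j (v (σ.N (j + 1))) m}

theorem Inv.zone (hO : ∀ m, IsOpen (O m)) {v : ℕ → ℕ} {σ : Sta D} (h : Inv p V O a K E v σ)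
    (s : ℕ) : ∃ l, s ≤ l ∧ Zone O v σ s l := by
  have h1 : ∀ᶠ l in atTop, ∀ m ∈ Finset.range s, cylinder (σ.x m) l ⊆
      {y | y ∈ O m ∧ ∀ j ∈ Finset.range σ.h, m < σ.N (j + 1) → y ∈ σ.Q j (v (σ.N (j + 1))) m} := by
    refine (Finset.eventually_all _).2 fun m _ => ev_cyl (Eventually.and
      ((hO m).mem_nhds (h.mem m)) ((Finset.eventually_all _).2 fun j hj => ?_))
    by_cases hm : m < σ.N (j + 1)
    · obtain ⟨u, hu, -⟩ := h.fam j (Finset.mem_range.1 hj)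
      filter_upwards [(hu.small _ m hm).op.mem_nhds (h.memQ j (Finset.mem_range.1 hj) m hm)]
        with y hy _ using hy
    · exact Eventually.of_forall fun _ h' => absurd h' hm
  obtain ⟨l, hl⟩ := ((eventually_ge_atTop s).and h1).exists
  simp only [Finset.mem_range] at hl
  exact ⟨l, hl⟩

theorem Inv.push (hp : Lip id p) (hO : ∀ m, IsOpen (O m))
    (hB : ∀ (x : ℕ → Y D) (s l i j : ℕ), (∀ m < s, cylinder (x m) l ⊆ O m) →
      ∃ n, s ≤ n ∧ ∃ Q, Fam p V O a n i (K n) (st x s l O) (E j) Q)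
    {v : ℕ → ℕ} {σ : Sta D} (h : Inv p V O a K E v σ) (t : ℕ) :
    ∃ σ' : Sta D, Inv p V O a K E v σ' ∧ (∀ m < t, p (σ'.x m) ∈ cylinder (p (σ.x m)) t) ∧
      σ'.h = σ.h + 1 ∧ (∀ j ≤ σ.h, σ'.N j = σ.N j) ∧ ∀ j < σ.h, σ'.Q j = σ.Q j := by
  set s := max t (σ.N σ.h + 1) with hs
  obtain ⟨l, hl0, hl⟩ := h.zone hO s
  obtain ⟨n, hn, Qn, hQ⟩ := hB σ.x s l (σ.N σ.h) σ.h fun m hm y hy => (hl m hm hy).1
  have e0 : ∀ m < s, st σ.x s l O m = cylinder (σ.x m) l := fun m hm => if_pos hm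
  have h2 : ∀ m, ∃ y, (m < t → p y ∈ cylinder (p (σ.x m)) t) ∧ y ∈ O m ∧
      (m < n → y ∈ Qn (v n) m) := by
    intro m
    by_cases hm : m < n
    · obtain ⟨y, hy⟩ := (hQ.small (v n) m hm).ne
      refine ⟨y, fun ht => ?_, hQ.sub _ m hm hy, fun _ => hy⟩
      obtain ⟨y', y1, y2⟩ := hQ.sh0 _ m hm y hy t
      rw [e0 m (by omega)] at y1
      exact cyl_trans (cyl_symm y2) (cylinder_anti _ (by omega) (hp y1))
    · exact ⟨σ.x m, fun _ => self_mem_cylinder _ _, h.mem m, fun h' => absurd h' hm⟩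
  choose x1 b1 b2 b3 using h2
  have eN : ∀ j ≤ σ.h, Function.update σ.N (σ.h + 1) n j = σ.N j := fun j hj =>
    Function.update_of_ne (by omega) _ _
  have eQ : ∀ j < σ.h, Function.update σ.Q σ.h Qn j = σ.Q j := fun j hj =>
    Function.update_of_ne hj.ne _ _
  have nest : ∀ j < σ.h, ∀ m < σ.N (j + 1), st σ.x s l O m ⊆ σ.Q j (v (σ.N (j + 1))) m := by
    intro j hj m hm y hy
    have := h.le (show j + 1 ≤ σ.h from hj) le_rfl
    rw [e0 m (by omega)] at hy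
    exact (hl m (by omega) hy).2 j hj hm
  refine ⟨⟨σ.h + 1, Function.update σ.N (σ.h + 1) n, Function.update σ.Q σ.h Qn, x1⟩,
    ⟨(eN 0 (Nat.zero_le _)).trans h.zero, fun j j' h1 h2 => ?_, fun j hj => ?_, b2,
      fun j hj m hm => ?_⟩, b1, rfl, eN, eQ⟩
  · simp only at h2 ⊢
    rcases h2.eq_or_lt with rfl | h2
    · have := h.le (show j ≤ σ.h by omega) le_rfl
      rw [eN j (by omega), Function.update_self]
      omega
    · rw [eN j (by omega), eN j' (by omega)]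
      exact h.mono j j' h1 (by omega)
  · simp only at hj ⊢
    rcases (Nat.lt_succ_iff.1 hj).eq_or_lt with rfl | hj
    · rw [Function.update_self, Function.update_self, eN _ le_rfl]
      refine ⟨_, hQ, fun j' hj' m hm => ?_⟩
      rw [eN _ hj'] at hm ⊢
      rw [eQ _ hj']
      exact nest j' hj' m hm
    · obtain ⟨u, u1, u2⟩ := h.fam j hj
      rw [eN _ hj, eN _ hj.le, eQ _ hj]
      refine ⟨u, u1, fun j' hj' m hm => ?_⟩
      rw [eN _ (show j' + 1 ≤ σ.h by omega)] at hm ⊢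
      rw [eQ _ (hj'.trans hj)]
      exact u2 j' hj' m hm
  · simp only at hj hm ⊢
    rcases (Nat.lt_succ_iff.1 hj).eq_or_lt with rfl | hj
    · rw [Function.update_self] at hm ⊢
      rw [Function.update_self]
      exact b3 m hm
    · rw [eN _ hj] at hm ⊢
      rw [eQ _ hj]
      have : m < σ.N σ.h := lt_of_lt_of_le hm (h.le hj le_rfl)
      exact nest j hj m hm (hQ.low _ m (by omega) (by omega) (b3 m (by omega)))

omit [TopologicalSpace D] [DiscreteTopology D] in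
theorem limit {S : ℕ → Sta D} {v : ℕ → ℕ → ℕ} (hI : ∀ t, Inv p V O a K E (v t) (S t))
    (hS : ∀ t, ∀ j ≤ (S t).h, (∀ j' < j, v (t + 1) ((S t).N (j' + 1)) = v t ((S t).N (j' + 1))) →
      j < (S (t + 1)).h ∧ (j < (S t).h →
        (S (t + 1)).N (j + 1) = (S t).N (j + 1) ∧ (S (t + 1)).Q j = (S t).Q j))
    (hanti : ∀ t n, v (t + 1) n ≤ v t n) (hK : ∀ n, ∀ᶠ t in atTop, v t n < K n) {g : Cs}
    (hg : ∀ n, ∀ m < n, ∀ᶠ t in atTop, (v t n).testBit m = g m) :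
    ∃ w : ℕ → Y D, (∀ m k, ∀ᶠ t in atTop, (S t).x m k = w m k) ∧
      (∀ m, w m ∈ O m ∧ w m ∈ V (a m) (g m)) ∧ ∀ j, w ∈ E j := by
  have stab : ∀ j, ∃ n Q ι, ∀ᶠ t in atTop, j < (S t).h ∧ (S t).N (j + 1) = n ∧
      (S t).Q j = Q ∧ v t n = ι := by
    intro j
    induction j using Nat.strong_induction_on with
    | _ j ih =>
    choose! n Q ι hn using ih
    obtain ⟨T, hT⟩ := eventually_atTop.1 ((Finset.eventually_all (Finset.range j)).2
      fun j' hj' => hn j' (Finset.mem_range.1 hj'))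
    simp only [Finset.mem_range] at hT
    have k1 := fun t (ht : T ≤ t) => hS t j (by
      rcases j with _ | j
      exacts [Nat.zero_le _, (hT t ht j (Nat.lt_succ_self j)).1]) fun j' hj' => by
        rw [(hT t ht j' hj').2.1, (hT t ht j' hj').2.2.2, (hT (t + 1) (by omega) j' hj').2.2.2]
    have k2 : ∀ t, T + 1 ≤ t → j < (S t).h ∧ (S t).N (j + 1) = (S (T + 1)).N (j + 1) ∧
        (S t).Q j = (S (T + 1)).Q j := by
      intro t ht
      induction ht with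
      | refl => exact ⟨(k1 T le_rfl).1, rfl, rfl⟩
      | @step t ht ih =>
        have k3 := k1 t (Nat.le_of_succ_le ht)
        exact ⟨k3.1, (k3.2 ih.1).1.trans ih.2.1, (k3.2 ih.1).2.trans ih.2.2⟩
    obtain ⟨T', hT'⟩ := WellFoundedLT.antitone_chain_condition
      (antitone_nat_of_succ_le (f := fun t => v t ((S (T + 1)).N (j + 1))) fun t => hanti t _)
    exact ⟨_, _, _, ((eventually_ge_atTop (T + 1)).and (eventually_ge_atTop T')).mono fun t h =>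
      ⟨(k2 t h.1).1, (k2 t h.1).2.1, (k2 t h.1).2.2, (hT' t h.2).symm⟩⟩
  choose n Q ι hn using stab
  let n0 : ℕ → ℕ := fun j => Nat.casesOn j 0 n
  have hn0 : ∀ j, ∀ᶠ t in atTop, (S t).N j = n0 j := by
    rintro (_ | j)
    exacts [Eventually.of_forall fun t => (hI t).zero, (hn j).mono fun t h => h.2.1]
  have fam : ∀ j, n0 j < n j ∧ ι j < K (n j) ∧
      ∃ u, Fam p V O a (n j) (n0 j) (K (n j)) u (E j) (Q j) := by
    intro j
    obtain ⟨t, ⟨⟨h1, h2, h3, h4⟩, h5⟩, h7⟩ := (((hn j).and (hn0 j)).and (hK (n j))).exists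
    obtain ⟨u, hu, -⟩ := (hI t).fam j h1
    have h6 := (hI t).mono j (j + 1) (Nat.lt_succ_self j) h1
    rw [h2, h5] at h6
    rw [h2, h3, h5] at hu
    exact ⟨h6, h4 ▸ h7, u, hu⟩
  have hx : ∀ j, ∀ m < n j, ∀ᶠ t in atTop, (S t).x m ∈ Q j (ι j) m := fun j m hm =>
    (hn j).mono fun t h => by
      have := (hI t).memQ j h.1 m (h.2.1 ▸ hm)
      rwa [h.2.1, h.2.2.1, h.2.2.2] at this
  have big : ∀ j, j < n j := by
    intro j
    induction j with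
    | zero => exact (fam 0).1
    | succ j ih => exact lt_of_le_of_lt ih (fam (j + 1)).1
  have conv : ∀ m k, ∃ e, ∀ᶠ t in atTop, (S t).x m k = e := by
    intro m k
    obtain ⟨-, -, u, hu⟩ := fam (max m k)
    have := big (max m k)
    obtain ⟨y0, l, hl, he⟩ := hu.small (ι (max m k)) m (by omega)
    exact ⟨y0 k, (hx (max m k) m (by omega)).mono fun t h => (he ▸ h : _ ∈ cylinder y0 l) k
      (by omega)⟩
  choose w hw using conv
  have inQ : ∀ j, ∀ m < n j, w m ∈ Q j (ι j) m := by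
    intro j m hm
    obtain ⟨-, -, u, hu⟩ := fam j
    obtain ⟨y0, l, -, he⟩ := hu.small (ι j) m hm
    rw [he]
    intro k hk
    obtain ⟨t, h1, h2⟩ := ((hx j m hm).and (hw m k)).exists
    rw [he] at h1
    exact h2.symm.trans (h1 k hk)
  have inO : ∀ m, w m ∈ O m := fun m =>
    (fam m).2.2.choose_spec.sub _ m (big m) (inQ m m (big m))
  refine ⟨w, hw, fun m => ⟨inO m, ?_⟩, fun j =>
    (fam j).2.2.choose_spec.den _ (fam j).2.1 w (inQ j) fun m _ => inO m⟩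
  classical
  have ex : ∃ j, m < n j := ⟨m, big m⟩
  have h1 := Nat.find_spec ex
  have h2 : n0 (Nat.find ex) ≤ m := by
    have h3 := fun j => Nat.find_min ex (m := j)
    generalize Nat.find ex = j at h3
    rcases j with _ | j
    exacts [Nat.zero_le _, not_lt.1 (h3 j (Nat.lt_succ_self j))]
  generalize Nat.find ex = j at h1 h2
  obtain ⟨t, h3, h4⟩ := ((hn j).and (hg _ m h1)).exists
  rw [← h4, h3.2.2.2]
  exact (fam j).2.2.choose_spec.bit _ m h1 h2 (inQ j m h1)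

theorem top (hp : Lip id p) (hO : ∀ m, IsOpen (O m) ∧ (O m).Nonempty)
    (hB : ∀ (x : ℕ → Y D) (s l i j : ℕ), (∀ m < s, cylinder (x m) l ⊆ O m) →
      ∃ n, s ≤ n ∧ ∃ Q, Fam p V O a n i (K n) (st x s l O) (E j) Q) :
    ∃ σ : Pre p O (ℕ → ℕ), ∀ (U : ℕ → ℕ → ℕ) (g : Cs), (∀ t n, U (t + 1) n ≤ U t n) →
      (∀ t n, U t n < K n) → (∀ n, ∀ m < n, ∀ᶠ t in atTop, (U t n).testBit m = g m) →
      σ.Win U fun w => (∀ m, w m ∈ O m ∧ w m ∈ V (a m) (g m)) ∧ ∀ j, w ∈ E j := by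
  choose o ho using fun m => (hO m).2
  let S := {q : Sta D × (ℕ → ℕ) × ℕ × ℕ // Inv p V O a K E q.2.1 q.1 ∧ q.1.N q.1.h ≤ q.2.2.1 ∧
    q.2.2.1 ≤ q.2.2.2 ∧ Zone O q.2.1 q.1 q.2.2.1 q.2.2.2}
  let R : S → (ℕ → ℕ) → (ℕ → Y D) → ℕ → S → Prop := fun q u w M q' =>
    (Leg O q.1.1.x q.1.2.2.1 q.1.2.2.2 w M ∧ Agr p q'.1.1.x w M ∧ M < q'.1.2.2.1) ∧
      q'.1.2.1 = (fun n => min (u n) (q.1.2.1 n)) ∧ ∀ j ≤ q.1.1.h,
        (∀ j' < j, q'.1.2.1 (q.1.1.N (j' + 1)) = q.1.2.1 (q.1.1.N (j' + 1))) → j < q'.1.1.h ∧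
        (j < q.1.1.h → q'.1.1.N (j + 1) = q.1.1.N (j + 1) ∧ q'.1.1.Q j = q.1.1.Q j)
  have tot : ∀ q u w M, Leg O q.1.1.x q.1.2.2.1 q.1.2.2.2 w M → ∃ q', R q u w M q' := by
    rintro ⟨⟨σ, v, b, l⟩, h1, h2, h3, h4⟩ u w M hw
    have h5 : Inv p V O a K E v ⟨σ.h, σ.N, σ.Q, w⟩ := ⟨h1.zero, h1.mono, h1.fam, hw.2.1,
      fun j hj m hm => by
        have h6 : m < b := lt_of_lt_of_le hm ((h1.le hj le_rfl).trans h2)
        exact (h4 m h6 (hw.1 m h6)).2 j hj hm⟩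
    obtain ⟨k1, x1, a1, a2, a3, a4⟩ := h5.pop (v' := fun n => min (u n) (v n))
      (fun n => min_le_right _ _) M
    obtain ⟨σ', b1, b2, b3, b4, b5⟩ := a1.push hp (fun m => (hO m).1) hB M
    obtain ⟨l', c1, c2⟩ := b1.zone (fun m => (hO m).1) (max (M + 1) (σ'.N σ'.h))
    refine ⟨⟨⟨σ', _, _, l'⟩, b1, le_max_right _ _, c1, c2⟩, ⟨hw, fun m hm =>
      cyl_trans (b2 m hm) (a2 m), le_max_left (M + 1) _⟩, rfl, fun j hj hv => ⟨?_,
      fun hj' => ⟨b4 _ (a4 j hj' hv), b5 _ (a4 j hj' hv)⟩⟩⟩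
    simp only at b3 ⊢
    rcases j with _ | j
    · omega
    · have := a4 j hj fun j' h => hv j' (by omega)
      omega
  let σ : Pre p O (ℕ → ℕ) := ⟨S, ⟨⟨⟨0, fun _ => 0, fun _ _ _ => univ, o⟩, K, 0, 0⟩,
    ⟨rfl, fun j j' h1 h2 => absurd (h1.trans_le h2) (Nat.not_lt_zero j),
      fun j hj => absurd hj (Nat.not_lt_zero j), ho, fun j hj => absurd hj (Nat.not_lt_zero j)⟩,
    le_rfl, le_rfl, fun m hm => absurd hm (Nat.not_lt_zero m)⟩, fun q => q.1.1.x,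
    fun q => q.1.2.2.1, fun q => q.1.2.2.2, R, fun q => ⟨q.2.2.2.1, q.2.1.mem,
      fun m hm y hy => (q.2.2.2.2 m hm hy).1⟩, tot, fun _ _ _ _ _ h => h.1⟩
  refine ⟨σ, fun U g u1 u2 u3 (s : ℕ → S) w M h0 h => ?_⟩
  have e : ∀ t, (s (t + 1)).1.2.1 = U t := fun t => by
    induction t with
    | zero => rw [(h 0).2.1, h0]; exact funext fun n => min_eq_left (u2 0 n).le
    | succ t ih => rw [(h (t + 1)).2.1, ih]; exact funext fun n => min_eq_left (u1 t n)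
  have ev : ∀ {P : (ℕ → ℕ) → Prop}, (∀ᶠ t in atTop, P (U t)) → ∀ᶠ t in atTop, P (s t).1.2.1 :=
    fun h => by
      obtain ⟨T, hT⟩ := eventually_atTop.1 h
      refine eventually_atTop.2 ⟨T + 1, fun t ht => ?_⟩
      obtain ⟨t, rfl⟩ : ∃ t', t = t' + 1 := ⟨t - 1, by omega⟩
      exact e t ▸ hT t (by omega)
  obtain ⟨z, z1, z2⟩ := limit (S := fun t => (s t).1.1) (v := fun t => (s t).1.2.1)
    (fun t => (s t).2.1) (fun t => (h t).2.2) (fun t n => by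
      rw [(h t).2.1]; exact min_le_right _ _)
    (fun n => ev (P := fun v => v n < K n) (Eventually.of_forall fun t => u2 t n))
    fun n m hm => ev (P := fun v => (v n).testBit m = g m) (u3 n m hm)
  refine ⟨z, z2, fun t m hm => ?_⟩
  obtain ⟨t', h1, h2⟩ := ((eventually_gt_atTop t).and
    ((Finset.eventually_all (Finset.range (M t))).2 fun k _ => z1 m k)).exists
  obtain ⟨t', rfl⟩ : ∃ r, t' = r + 1 := ⟨t' - 1, by omega⟩
  have h3 := σ.chain hp h (Nat.lt_succ_iff.1 h1)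
  exact cyl_trans (hp fun k hk => (h2 k (Finset.mem_range.2 hk)).symm)
    ((h t').1.2.1.trans h3.2 h3.1 m hm)

end Pool.Agent.Lib.MP_5684f0_lc.G
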